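import Pool.Agent.Lib.MP_3cbb73_an.Mem.Par

set_option autoImplicit false

/-! From a checked list of integers to the parameters of the potential with memory. -/

namespace Pool.Agent.Lib.MP_3cbb73_an.Mem

/-- integer constants of a certificate -/
structure Dat where
  R : ℤ
  Q : ℤ
  A : ℤ
  u : ℤ
  w : ℤ
  b : ℤ
  c : ℤ
  s : ℤ
  e : ℤ
  η : ℤ

namespace Dat

variable (D : Dat)

/-- the conditions on a pair of consecutive entries -/
def ok (x y : ℕ × ℕ × ℕ) : Bool :=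
  decide (D.A * D.Q + D.u * ((y.1 : ℤ) - D.Q) + D.w * (y.2.1 : ℤ) ≤ D.R * ((x.1 : ℤ) - D.Q)) &&
  decide (0 ≤ D.R * (x.2.2 : ℤ) - D.s * (y.2.2 : ℤ)) &&
  (decide (D.b * (((y.1 : ℤ) - D.Q).natAbs : ℤ) + D.c * (y.2.1 : ℤ) - D.R * (x.2.1 : ℤ) ≤ 0) ||
   decide ((D.b * (((y.1 : ℤ) - D.Q).natAbs : ℤ) + D.c * (y.2.1 : ℤ) - D.R * (x.2.1 : ℤ)) *
      (D.b * (((y.1 : ℤ) - D.Q).natAbs : ℤ) + D.c * (y.2.1 : ℤ) - D.R * (x.2.1 : ℤ)) ≤
      (D.R * (x.2.2 : ℤ) - D.s * (y.2.2 : ℤ)) * D.e * D.Q)) &&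
  decide ((x.1 : ℤ) ≤ 2 * D.Q) &&
  (decide (D.Q ≤ (x.1 : ℤ)) ||
   decide (((x.1 : ℤ) - D.Q) * ((x.1 : ℤ) - D.Q) * D.R ≤ D.η * (x.2.2 : ℤ) * D.Q))

/-- the check of a list -/
def chk (last : ℕ × ℕ × ℕ) : List (ℕ × ℕ × ℕ) → Bool
  | [] => true
  | x :: l => D.ok x (l.headD last) && chk last l

lemma chk_getD (last : ℕ × ℕ × ℕ) (h0 : D.ok last last = true) :
    ∀ (L : List (ℕ × ℕ × ℕ)), D.chk last L = true → ∀ z,
      D.ok (L.getD z last) (L.getD (z + 1) last) = true := by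
  intro L
  induction L with
  | nil =>
    intro _ z
    simpa using h0
  | cons x l ih =>
    intro h z
    rw [chk, Bool.and_eq_true] at h
    cases z with
    | zero =>
      have e : (x :: l).getD (0 + 1) last = l.headD last := by
        cases l <;> rfl
      rw [e]
      exact h.1
    | succ z =>
      have := ih h.2 z
      simpa using this


end Dat

/-- the parameters of the potential obtained from a certificate -/
noncomputable def MPar.ofDat (D : Dat) (L : List (ℕ × ℕ × ℕ)) (last : ℕ × ℕ × ℕ)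
    (h0 : D.ok last last = true) (hL : D.chk last L = true) (hR : 0 < D.R) (hQ : 0 < D.Q)
    (hh : ((L.getD 0 last).2.2 : ℤ) + (L.getD 0 last).1 ≤ 2 * D.Q)
    (θ s α γ G ω g t η τ : ℝ) (hθ : 0 < θ) (hθ1 : θ < 1) (hs : θ ^ 2 < s) (hsθ : s ≤ θ)
    (hα : 0 < α) (hα1 : α < 1) (hγ : 0 < γ) (hG : 0 < G) (hω : 0 < ω) (hg : 0 < g) (ht : 0 < t)
    (hη : 0 ≤ η) (hτ : 0 < τ) (hηt : η * (1 + τ) < 4 * t)
    (hηG : η * g ^ 2 * (1 + τ) ≤ 4 * t * G * τ)
    (hωA : g * (s / θ ^ 2 - 1 + G * s * γ ^ 2 / θ ^ 2 + ω) = 2 * G * s * α * γ / θ ^ 2)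
    (hA3 : 0 ≤ G * (1 - s * α ^ 2 / θ ^ 2)) (hαg : γ * g ≤ α)
    (eA : (D.R : ℝ) * (s / θ ^ 2 - 1 + G * s * γ ^ 2 / θ ^ 2 + ω) = D.A)
    (eu : (D.R : ℝ) * (s / θ * (1 + g * γ)) = D.u)
    (ew : (D.R : ℝ) * (s / θ * γ) = D.w)
    (eb : (D.R : ℝ) * (s / θ * (g * (1 + g * γ - α))) = D.b)
    (ec : (D.R : ℝ) * (s / θ * (α - γ * g)) = D.c)
    (es : (D.R : ℝ) * s = D.s)
    (ee : (D.R : ℝ) * (4 * (G * (1 - s * α ^ 2 / θ ^ 2)) * t) = D.e)
    (eη : (D.R : ℝ) * η = D.η) : MPar where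
  θ := θ
  s := s
  α := α
  γ := γ
  G := G
  A := s / θ ^ 2 - 1 + G * s * γ ^ 2 / θ ^ 2 + ω
  A3 := G * (1 - s * α ^ 2 / θ ^ 2)
  ω := ω
  g := g
  t := t
  η := η
  τ := τ
  P := fun z => ((L.getD z last).1 : ℝ) / D.Q - 1
  δ := fun z => ((L.getD z last).2.1 : ℝ) / D.Q
  κ := fun z => ((L.getD z last).2.2 : ℝ) / D.Q
  hθ := hθ
  hθ1 := hθ1
  hs := hs
  hsθ := hsθ
  hα := hα
  hα1 := hα1
  hγ := hγ
  hG := hG
  hω := hω
  hg := hg
  ht := ht
  hη := hη
  hτ := hτ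
  hηt := hηt
  hηG := hηG
  hA := rfl
  hgA := hωA
  hA3 := rfl
  hA3pos := hA3
  hαg := hαg
  cond_a := by
    intro z
    have h := D.chk_getD last h0 L hL z
    unfold Dat.ok at h
    simp only [Bool.and_eq_true, decide_eq_true_eq] at h
    obtain ⟨⟨⟨⟨h1, -⟩, -⟩, -⟩, -⟩ := h
    generalize L.getD z last = x at h1 ⊢
    generalize L.getD (z + 1) last = y at h1 ⊢
    have hR' : (0 : ℝ) < D.R := by exact_mod_cast hR
    have hQ' : (0 : ℝ) < D.Q := by exact_mod_cast hQ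
    have h2 : (D.A : ℝ) * D.Q + D.u * ((y.1 : ℝ) - D.Q) + D.w * (y.2.1 : ℝ)
        ≤ D.R * ((x.1 : ℝ) - D.Q) := by exact_mod_cast h1
    rw [← eA, ← eu, ← ew] at h2
    generalize s / θ ^ 2 - 1 + G * s * γ ^ 2 / θ ^ 2 + ω = A at h2 ⊢
    have e1 : A + s / θ * ((1 + g * γ) * ((y.1 : ℝ) / D.Q - 1) + γ * ((y.2.1 : ℝ) / D.Q))
        = (D.R * A * D.Q + D.R * (s / θ * (1 + g * γ)) * ((y.1 : ℝ) - D.Q)
          + D.R * (s / θ * γ) * (y.2.1 : ℝ)) / (D.R * D.Q) := by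
      field_simp
      ring
    have e2 : (x.1 : ℝ) / D.Q - 1 = D.R * ((x.1 : ℝ) - D.Q) / (D.R * D.Q) := by
      field_simp
    rw [e1, e2]
    exact div_le_div_of_nonneg_right h2 (by positivity)
  cond_b := by
    intro z x₀ hx₀
    have h := D.chk_getD last h0 L hL z
    unfold Dat.ok at h
    simp only [Bool.and_eq_true, Bool.or_eq_true, decide_eq_true_eq] at h
    obtain ⟨⟨⟨⟨-, h1⟩, h2⟩, -⟩, -⟩ := h
    generalize L.getD z last = x at h1 h2 ⊢
    generalize L.getD (z + 1) last = y at h1 h2 ⊢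
    have hR' : (0 : ℝ) < D.R := by exact_mod_cast hR
    have hQ' : (0 : ℝ) < D.Q := by exact_mod_cast hQ
    rw [Int.natCast_natAbs] at h2
    set A3 := G * (1 - s * α ^ 2 / θ ^ 2) with hA3def
    set E : ℝ := (x.2.2 : ℝ) / D.Q - s * ((y.2.2 : ℝ) / D.Q) with hE
    set B : ℝ := s / θ * (g * (1 + g * γ - α) * |(y.1 : ℝ) / D.Q - 1|
      + (α - γ * g) * ((y.2.1 : ℝ) / D.Q)) - (x.2.1 : ℝ) / D.Q with hB
    have hE1 : D.R * D.Q * E = ((D.R * (x.2.2 : ℤ) - D.s * (y.2.2 : ℤ) : ℤ) : ℝ) := by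
      push_cast
      rw [← es, hE]
      field_simp
    have habs : |(y.1 : ℝ) / D.Q - 1| = |(y.1 : ℝ) - D.Q| / D.Q := by
      have : (y.1 : ℝ) / D.Q - 1 = ((y.1 : ℝ) - D.Q) / D.Q := by field_simp
      rw [this, abs_div, abs_of_pos hQ']
    have hB1 : D.R * D.Q * B = ((D.b * |(y.1 : ℤ) - D.Q| + D.c * (y.2.1 : ℤ)
        - D.R * (x.2.1 : ℤ) : ℤ) : ℝ) := by
      push_cast
      rw [← eb, ← ec, hB, habs]
      field_simp
      try ring
    have hE0 : 0 ≤ E := by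
      have h3 : (0 : ℝ) ≤ D.R * D.Q * E := by
        rw [hE1]; exact_mod_cast h1
      have h4 : 0 < (D.R : ℝ) * D.Q := by positivity
      exact nonneg_of_mul_nonneg_right h3 h4
    have hgoal : 0 ≤ E - B * x₀ + A3 * t * x₀ ^ 2 := by
      rcases h2 with h2 | h2
      · have h3 : D.R * D.Q * B ≤ 0 := by
          rw [hB1]; exact_mod_cast h2
        have h4 : 0 < (D.R : ℝ) * D.Q := by positivity
        have h5 : B ≤ 0 := by
          by_contra hcon
          push Not at hcon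
          have := mul_pos h4 hcon
          linarith
        have h6 : 0 ≤ A3 * t * x₀ ^ 2 := by positivity
        nlinarith
      · have h3 : (D.R * D.Q * B) * (D.R * D.Q * B) ≤ (D.R * D.Q * E) * D.e * D.Q := by
          rw [hB1, hE1]; exact_mod_cast h2
        have h4 : B ^ 2 ≤ 4 * (A3 * t) * E := by
          rw [← ee] at h3
          have h5 : 0 < (D.R : ℝ) ^ 2 * D.Q ^ 2 := by positivity
          have h6 : (D.R : ℝ) ^ 2 * D.Q ^ 2 * B ^ 2
              ≤ (D.R : ℝ) ^ 2 * D.Q ^ 2 * (4 * (A3 * t) * E) := by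
            calc (D.R : ℝ) ^ 2 * D.Q ^ 2 * B ^ 2 = (D.R * D.Q * B) * (D.R * D.Q * B) := by ring
              _ ≤ _ := h3
              _ = _ := by ring
          exact le_of_mul_le_mul_left h6 h5
        rcases hA3.eq_or_lt with h7 | h7
        · rw [← h7] at h4 ⊢
          have h8 : B = 0 := by
            have : B ^ 2 ≤ 0 := by linarith
            exact pow_eq_zero_iff two_ne_zero |>.1 (le_antisymm this (sq_nonneg _))
          rw [h8]
          linarith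
        · have h8 : 0 < A3 * t := mul_pos h7 ht
          have h9 : 0 ≤ A3 * t * (x₀ - B / (2 * (A3 * t))) ^ 2 := by positivity
          have h10 : A3 * t * (x₀ - B / (2 * (A3 * t))) ^ 2
              = A3 * t * x₀ ^ 2 - B * x₀ + B ^ 2 / (4 * (A3 * t)) := by
            field_simp
            ring
          have h11 : B ^ 2 / (4 * (A3 * t)) ≤ E := by
            rw [div_le_iff₀ (by positivity)]
            linarith
          linarith
    have e1 : s / θ * (g * (1 + g * γ - α) * |(y.1 : ℝ) / D.Q - 1|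
        + (α - γ * g) * ((y.2.1 : ℝ) / D.Q)) = B + (x.2.1 : ℝ) / D.Q := by rw [hB]; ring
    rw [e1]
    linarith
  hP := by
    intro z
    have h := D.chk_getD last h0 L hL z
    unfold Dat.ok at h
    simp only [Bool.and_eq_true, decide_eq_true_eq] at h
    obtain ⟨⟨-, h1⟩, -⟩ := h
    generalize L.getD z last = x at h1 ⊢
    have hQ' : (0 : ℝ) < D.Q := by exact_mod_cast hQ
    have h2 : (x.1 : ℝ) ≤ 2 * D.Q := by exact_mod_cast h1
    have h3 : (x.1 : ℝ) / D.Q ≤ 2 := by rw [div_le_iff₀ hQ']; exact h2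
    have h4 : 0 ≤ (x.1 : ℝ) / D.Q := by positivity
    rw [abs_le]
    constructor <;> linarith
  hδ := by
    intro z
    have hQ' : (0 : ℝ) < D.Q := by exact_mod_cast hQ
    positivity
  h0 := by
    have hQ' : (0 : ℝ) < D.Q := by exact_mod_cast hQ
    generalize L.getD 0 last = x at hh ⊢
    have h2 : (x.2.2 : ℝ) + x.1 ≤ 2 * D.Q := by exact_mod_cast hh
    have h3 : ((x.2.2 : ℝ) + x.1) / D.Q ≤ 2 := by rw [div_le_iff₀ hQ']; exact h2
    rw [add_div] at h3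
    linarith
  hcoer := by
    intro z x₀ hx₀
    have h := D.chk_getD last h0 L hL z
    unfold Dat.ok at h
    simp only [Bool.and_eq_true, Bool.or_eq_true, decide_eq_true_eq] at h
    obtain ⟨-, h1⟩ := h
    generalize L.getD z last = x at h1 ⊢
    have hR' : (0 : ℝ) < D.R := by exact_mod_cast hR
    have hQ' : (0 : ℝ) < D.Q := by exact_mod_cast hQ
    have hκ : 0 ≤ (x.2.2 : ℝ) / D.Q := by positivity
    rcases h1 with h1 | h1
    · have h2 : (D.Q : ℝ) ≤ x.1 := by exact_mod_cast h1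
      have h3 : 1 ≤ (x.1 : ℝ) / D.Q := by rw [le_div_iff₀ hQ']; linarith
      have h4 : 0 ≤ ((x.1 : ℝ) / D.Q - 1) * x₀ := mul_nonneg (by linarith) hx₀
      have h5 : 0 ≤ η / 4 * x₀ ^ 2 := by positivity
      linarith
    · have h2 : ((x.1 : ℝ) - D.Q) * ((x.1 : ℝ) - D.Q) * D.R ≤ D.η * (x.2.2 : ℝ) * D.Q := by
        exact_mod_cast h1
      rw [← eη] at h2
      set P := (x.1 : ℝ) / D.Q - 1 with hP
      set κ := (x.2.2 : ℝ) / D.Q with hκd
      have e1 : (x.1 : ℝ) - D.Q = D.Q * P := by rw [hP]; field_simp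
      have e2 : (x.2.2 : ℝ) = D.Q * κ := by rw [hκd]; field_simp
      rw [e1, e2] at h2
      have h3 : P ^ 2 ≤ η * κ := by
        have h5 : 0 < (D.R : ℝ) * D.Q ^ 2 := by positivity
        have h6 : (D.R : ℝ) * D.Q ^ 2 * P ^ 2 ≤ (D.R : ℝ) * D.Q ^ 2 * (η * κ) := by
          calc (D.R : ℝ) * D.Q ^ 2 * P ^ 2 = D.Q * P * (D.Q * P) * D.R := by ring
            _ ≤ _ := h2
            _ = _ := by ring
        exact le_of_mul_le_mul_left h6 h5
      rcases hη.eq_or_lt with h7 | h7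
      · rw [← h7] at h3 ⊢
        have h8 : P = 0 := by
          have : P ^ 2 ≤ 0 := by linarith
          exact pow_eq_zero_iff two_ne_zero |>.1 (le_antisymm this (sq_nonneg _))
        rw [h8]
        linarith
      · have h9 : 0 ≤ η / 4 * (x₀ + 2 * P / η) ^ 2 := by positivity
        have h10 : η / 4 * (x₀ + 2 * P / η) ^ 2 = η / 4 * x₀ ^ 2 + P * x₀ + P ^ 2 / η := by
          field_simp
          ring
        have h11 : P ^ 2 / η ≤ κ := by
          rw [div_le_iff₀ h7]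
          linarith
        linarith

end Pool.Agent.Lib.MP_3cbb73_an.Mem
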