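import Mathlib

set_option autoImplicit false

/-! Parameters of the potential with memory and its inequalities for one coordinate. -/

namespace Pool.Agent.Lib.MP_3cbb73_an.Mem

/-- Parameters and their constraints. -/
structure MPar where
  θ : ℝ
  s : ℝ
  α : ℝ
  γ : ℝ
  G : ℝ
  A : ℝ
  A3 : ℝ
  ω : ℝ
  g : ℝ
  t : ℝ
  η : ℝ
  τ : ℝ
  P : ℕ → ℝ
  δ : ℕ → ℝ
  κ : ℕ → ℝ
  hθ : 0 < θ
  hθ1 : θ < 1
  hs : θ ^ 2 < s
  hsθ : s ≤ θ
  hα : 0 < α
  hα1 : α < 1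
  hγ : 0 < γ
  hG : 0 < G
  hω : 0 < ω
  hg : 0 < g
  ht : 0 < t
  hη : 0 ≤ η
  hτ : 0 < τ
  hηt : η * (1 + τ) < 4 * t
  hηG : η * g ^ 2 * (1 + τ) ≤ 4 * t * G * τ
  hA : A = s / θ ^ 2 - 1 + G * s * γ ^ 2 / θ ^ 2 + ω
  hgA : g * A = 2 * G * s * α * γ / θ ^ 2
  hA3 : A3 = G * (1 - s * α ^ 2 / θ ^ 2)
  hA3pos : 0 ≤ A3
  hαg : γ * g ≤ α
  cond_a : ∀ z, A + s / θ * ((1 + g * γ) * P (z + 1) + γ * δ (z + 1)) ≤ P z
  cond_b : ∀ z x, 0 ≤ x →
    s / θ * (g * (1 + g * γ - α) * |P (z + 1)| + (α - γ * g) * δ (z + 1)) * x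
      ≤ κ z - s * κ (z + 1) + δ z * x + A3 * t * x ^ 2
  hP : ∀ z, |P z| ≤ 1
  hδ : ∀ z, 0 ≤ δ z
  h0 : κ 0 + P 0 ≤ 1
  hcoer : ∀ z x, 0 ≤ x → -(η / 4 * x ^ 2) ≤ κ z + P z * x

namespace MPar

variable (p : MPar)

/-- the potential of a coordinate of age `z` -/
noncomputable def w (z : ℕ) (v μ : ℝ) : ℝ := p.κ z + p.P z * |v + p.g * μ| + p.δ z * |μ|

lemma s_pos : 0 < p.s := lt_trans (by have := p.hθ; positivity) p.hs

lemma A_pos : 0 < p.A := by
  have h1 := p.hA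
  have h2 := p.hω
  have h3 := p.hs
  have h4 := p.hθ
  have h5 : 1 < p.s / p.θ ^ 2 := by rw [one_lt_div (by positivity)]; exact h3
  have h6 : 0 ≤ p.G * p.s * p.γ ^ 2 / p.θ ^ 2 := by
    have := p.hG; have := p.s_pos; positivity
  linarith

/-- bound for the quotient of memory and coefficient of an untouched coordinate -/
noncomputable def M : ℝ := p.γ / (1 - p.α)

lemma M_pos : 0 < p.M := div_pos p.hγ (by have := p.hα1; linarith)

lemma M_eq : p.α * p.M + p.γ = p.M := by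
  have h : (1 - p.α) ≠ 0 := by have := p.hα1; intro h; linarith
  unfold M
  field_simp
  ring

lemma born_adv (z : ℕ) (v μ ρ : ℝ) (hρ : |ρ| ≤ 1) :
    (p.A * v + p.g * p.A * μ) * ρ - p.A3 * p.t * μ ^ 2
      ≤ p.w z v μ - p.s * p.w (z + 1) (v / p.θ) ((p.α * μ + p.γ * v) / p.θ) := by
  have hθ := p.hθ
  have hs := p.s_pos
  have hA := p.A_pos
  have hg := p.hg
  have hγ := p.hγ
  have hα1 := p.hα1
  have hsθ0 : 0 < p.s / p.θ := div_pos hs hθ
  set K := v + p.g * μ with hK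
  set P' := p.P (z + 1) with hP'
  set δ' := p.δ (z + 1) with hδ'
  have hδ0 : 0 ≤ δ' := p.hδ _
  set x := |μ| with hx
  have hx0 : 0 ≤ x := abs_nonneg _
  -- the left side
  have h1 : (p.A * v + p.g * p.A * μ) * ρ ≤ p.A * |K| := by
    have e : (p.A * v + p.g * p.A * μ) * ρ = p.A * (K * ρ) := by rw [hK]; ring
    rw [e]
    apply mul_le_mul_of_nonneg_left _ hA.le
    calc K * ρ ≤ |K * ρ| := le_abs_self _
      _ = |K| * |ρ| := abs_mul _ _
      _ ≤ |K| * 1 := mul_le_mul_of_nonneg_left hρ (abs_nonneg _)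
      _ = |K| := mul_one _
  -- the new quantities
  have eK : v / p.θ + p.g * ((p.α * μ + p.γ * v) / p.θ)
      = ((1 + p.g * p.γ) * K - p.g * (1 + p.g * p.γ - p.α) * μ) / p.θ := by
    rw [hK]; field_simp; ring
  have eμ : (p.α * μ + p.γ * v) / p.θ = (p.γ * K + (p.α - p.γ * p.g) * μ) / p.θ := by
    rw [hK]; ring
  have hc1 : 0 < 1 + p.g * p.γ := by positivity
  have hc2 : 0 ≤ p.g * (1 + p.g * p.γ - p.α) := by
    apply mul_nonneg hg.le
    have : 0 < p.g * p.γ := mul_pos hg hγ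
    linarith
  have hc3 : 0 ≤ p.α - p.γ * p.g := by have := p.hαg; linarith
  -- |μ'|
  have h2 : |(p.α * μ + p.γ * v) / p.θ| ≤ (p.γ * |K| + (p.α - p.γ * p.g) * x) / p.θ := by
    rw [eμ, abs_div, abs_of_pos hθ]
    apply div_le_div_of_nonneg_right _ hθ.le
    refine (abs_add_le _ _).trans ?_
    rw [abs_mul, abs_mul, abs_of_pos hγ, abs_of_nonneg hc3]
  -- P' |K'|
  have h3 : P' * |v / p.θ + p.g * ((p.α * μ + p.γ * v) / p.θ)|
      ≤ (P' * (1 + p.g * p.γ) * |K| + |P'| * (p.g * (1 + p.g * p.γ - p.α)) * x) / p.θ := by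
    rw [eK, abs_div, abs_of_pos hθ, ← mul_div_assoc]
    apply div_le_div_of_nonneg_right _ hθ.le
    have e1 : |(1 + p.g * p.γ) * K| = (1 + p.g * p.γ) * |K| := by
      rw [abs_mul, abs_of_pos hc1]
    have e2 : |p.g * (1 + p.g * p.γ - p.α) * μ| = p.g * (1 + p.g * p.γ - p.α) * x := by
      rw [abs_mul, abs_of_nonneg hc2]
    rcases le_total 0 P' with h | h
    · have h4 : |(1 + p.g * p.γ) * K - p.g * (1 + p.g * p.γ - p.α) * μ|
          ≤ (1 + p.g * p.γ) * |K| + p.g * (1 + p.g * p.γ - p.α) * x := by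
        rw [← e1, ← e2]; exact abs_sub _ _
      rw [abs_of_nonneg h]
      have := mul_le_mul_of_nonneg_left h4 h
      linarith
    · have h4 : (1 + p.g * p.γ) * |K| - p.g * (1 + p.g * p.γ - p.α) * x
          ≤ |(1 + p.g * p.γ) * K - p.g * (1 + p.g * p.γ - p.α) * μ| := by
        rw [← e1, ← e2]; exact abs_sub_abs_le_abs_sub _ _
      rw [abs_of_nonpos h]
      have := mul_le_mul_of_nonneg_left h4 (neg_nonneg.2 h)
      linarith
  have ha := mul_le_mul_of_nonneg_right (p.cond_a z) (abs_nonneg K)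
  have hb := p.cond_b z x hx0
  have hx2 : μ ^ 2 = x ^ 2 := by rw [hx, sq_abs]
  have h5 : δ' * |(p.α * μ + p.γ * v) / p.θ|
      ≤ δ' * ((p.γ * |K| + (p.α - p.γ * p.g) * x) / p.θ) := mul_le_mul_of_nonneg_left h2 hδ0
  have h6 : p.s * p.w (z + 1) (v / p.θ) ((p.α * μ + p.γ * v) / p.θ)
      ≤ p.s * p.κ (z + 1) + p.s / p.θ * ((1 + p.g * p.γ) * P' + p.γ * δ') * |K|
        + p.s / p.θ * (p.g * (1 + p.g * p.γ - p.α) * |P'| + (p.α - p.γ * p.g) * δ') * x := by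
    have h7 : p.w (z + 1) (v / p.θ) ((p.α * μ + p.γ * v) / p.θ)
        ≤ p.κ (z + 1)
          + (P' * (1 + p.g * p.γ) * |K| + |P'| * (p.g * (1 + p.g * p.γ - p.α)) * x) / p.θ
          + δ' * ((p.γ * |K| + (p.α - p.γ * p.g) * x) / p.θ) := by
      unfold w
      linarith
    refine (mul_le_mul_of_nonneg_left h7 hs.le).trans (le_of_eq ?_)
    field_simp
    ring
  have h8 : p.w z v μ = p.κ z + p.P z * |K| + p.δ z * x := rfl
  rw [h8, hx2]
  linarith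

lemma born_step (z : ℕ) (v μ r : ℝ) (hr : 1 ≤ |r|) : p.w z (v - r) μ ≤ p.w z v μ + r ^ 2 := by
  have hP := p.hP z
  have h1 : r ^ 2 = |r| ^ 2 := (sq_abs r).symm
  have h2 : |r| ≤ |r| ^ 2 := by nlinarith
  have e : v - r + p.g * μ = (v + p.g * μ) - r := by ring
  unfold w
  rw [e, h1]
  have h3 : p.P z * |v + p.g * μ - r| ≤ p.P z * |v + p.g * μ| + |p.P z| * |r| := by
    rcases le_total 0 (p.P z) with h | h
    · rw [abs_of_nonneg h, ← mul_add]
      exact mul_le_mul_of_nonneg_left (abs_sub _ _) h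
    · rw [abs_of_nonpos h]
      have h4 : |v + p.g * μ| - |r| ≤ |v + p.g * μ - r| := abs_sub_abs_le_abs_sub _ _
      have := mul_le_mul_of_nonneg_left h4 (neg_nonneg.2 h)
      linarith
  have h5 : |p.P z| * |r| ≤ 1 * |r| := mul_le_mul_of_nonneg_right hP (abs_nonneg _)
  linarith

lemma w_coer (z : ℕ) (v μ : ℝ) : -(p.η / 4 * (v + p.g * μ) ^ 2) ≤ p.w z v μ := by
  have h1 := p.hcoer z |v + p.g * μ| (abs_nonneg _)
  rw [sq_abs] at h1
  have h2 : 0 ≤ p.δ z * |μ| := mul_nonneg (p.hδ z) (abs_nonneg _)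
  unfold w
  linarith

/-! ### Untouched coordinates -/

noncomputable def χ (q : ℝ) : ℝ :=
  (p.A * (1 + p.g * p.M)) ^ 2 * q / (4 * p.ω * (p.s / p.θ ^ 2 - 1))

noncomputable def L : ℝ := |p.κ 0| + |p.P 0| * (1 + p.g * p.M) + p.δ 0 * p.M

noncomputable def c (q : ℝ) : ℝ := p.χ q / p.θ + p.L

/-- the potential of an untouched coordinate -/
noncomputable def wu (q v : ℝ) : ℝ := p.c q * |v| - p.χ q * v ^ 2

lemma ratio_pos : 0 < p.s / p.θ ^ 2 - 1 := by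
  have h3 := p.hs
  have h4 := p.hθ
  have h5 : 1 < p.s / p.θ ^ 2 := by rw [one_lt_div (by positivity)]; exact h3
  linarith

lemma χ_nonneg {q : ℝ} (hq : 0 < q) : 0 ≤ p.χ q := by
  have := p.hω
  have := p.ratio_pos
  unfold χ
  positivity

lemma L_nonneg : 0 ≤ p.L := by
  have := p.hδ 0
  have := p.M_pos
  have := p.hg
  unfold L
  positivity

lemma c_nonneg {q : ℝ} (hq : 0 < q) : 0 ≤ p.c q := by
  have := p.χ_nonneg hq
  have := p.L_nonneg
  have := p.hθ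
  unfold c
  positivity

lemma un_adv {q : ℝ} (hq : 0 < q) (v μ ρ : ℝ) (hμ : |μ| ≤ p.M * |v|) :
    (p.A * v + p.g * p.A * μ) * ρ - p.ω / q * ρ ^ 2
      ≤ p.wu q v - p.s * p.wu q (v / p.θ) := by
  have hθ := p.hθ
  have hs := p.s_pos
  have hA := p.A_pos
  have hg := p.hg
  have hω := p.hω
  have hr := p.ratio_pos
  have hM := p.M_pos
  set B := p.A * (1 + p.g * p.M) with hB
  have h1 : (p.A * v + p.g * p.A * μ) * ρ ≤ B * |v| * |ρ| := by
    calc (p.A * v + p.g * p.A * μ) * ρ ≤ |(p.A * v + p.g * p.A * μ) * ρ| := le_abs_self _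
      _ = |p.A * v + p.g * p.A * μ| * |ρ| := abs_mul _ _
      _ ≤ (p.A * |v| + p.g * p.A * (p.M * |v|)) * |ρ| := by
          apply mul_le_mul_of_nonneg_right _ (abs_nonneg _)
          refine (abs_add_le _ _).trans ?_
          rw [abs_mul, abs_mul, abs_of_pos hA, abs_of_pos (mul_pos hg hA)]
          have := mul_le_mul_of_nonneg_left hμ (mul_pos hg hA).le
          linarith
      _ = B * |v| * |ρ| := by rw [hB]; ring
  have h2 : B * |v| * |ρ| - p.ω / q * ρ ^ 2 ≤ B ^ 2 * q / (4 * p.ω) * v ^ 2 := by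
    have e1 : ρ ^ 2 = |ρ| ^ 2 := (sq_abs ρ).symm
    have e2 : v ^ 2 = |v| ^ 2 := (sq_abs v).symm
    rw [e1, e2]
    have h3 : 0 ≤ p.ω / q * (|ρ| - B * q / (2 * p.ω) * |v|) ^ 2 := by positivity
    have h4 : p.ω / q * (|ρ| - B * q / (2 * p.ω) * |v|) ^ 2
        = p.ω / q * |ρ| ^ 2 - B * |v| * |ρ| + B ^ 2 * q / (4 * p.ω) * |v| ^ 2 := by
      field_simp
      ring
    linarith
  have h5 : p.wu q v - p.s * p.wu q (v / p.θ)
      = p.c q * |v| * (1 - p.s / p.θ) + p.χ q * (p.s / p.θ ^ 2 - 1) * v ^ 2 := by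
    unfold wu
    rw [abs_div, abs_of_pos hθ, div_pow]
    field_simp
    ring
  have h6 : p.χ q * (p.s / p.θ ^ 2 - 1) = B ^ 2 * q / (4 * p.ω) := by
    unfold χ
    rw [← hB]
    have hr' : p.s / p.θ ^ 2 - 1 ≠ 0 := hr.ne'
    generalize p.s / p.θ ^ 2 - 1 = R at hr' ⊢
    field_simp
  have h7 : 0 ≤ p.c q * |v| * (1 - p.s / p.θ) := by
    apply mul_nonneg (mul_nonneg (p.c_nonneg hq) (abs_nonneg _))
    have : p.s / p.θ ≤ 1 := by rw [div_le_one hθ]; exact p.hsθ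
    linarith
  rw [h5, h6]
  linarith

lemma wu_ge {q : ℝ} (hq : 0 < q) {v : ℝ} (hv : |v| ≤ 1 / p.θ) : p.L * |v| ≤ p.wu q v := by
  have hθ := p.hθ
  have hχ := p.χ_nonneg hq
  unfold wu c
  have e2 : v ^ 2 = |v| ^ 2 := (sq_abs v).symm
  rw [e2]
  have h1 : p.χ q * |v| * |v| ≤ p.χ q * |v| * (1 / p.θ) :=
    mul_le_mul_of_nonneg_left hv (mul_nonneg hχ (abs_nonneg _))
  have h2 : p.χ q / p.θ * |v| = p.χ q * |v| * (1 / p.θ) := by ring
  nlinarith

lemma wu_nonneg {q : ℝ} (hq : 0 < q) {v : ℝ} (hv : |v| ≤ 1 / p.θ) : 0 ≤ p.wu q v :=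
  (mul_nonneg p.L_nonneg (abs_nonneg _)).trans (p.wu_ge hq hv)

lemma wu_le {q : ℝ} (hq : 0 < q) (v : ℝ) : p.wu q v ≤ p.c q * |v| := by
  have hχ := p.χ_nonneg hq
  unfold wu
  have : 0 ≤ p.χ q * v ^ 2 := by positivity
  linarith

lemma one_le_inv_θ : 1 ≤ 1 / p.θ := by
  rw [le_div_iff₀ p.hθ]; have := p.hθ1; linarith

lemma un_step {q : ℝ} (hq : 0 < q) {v μ r : ℝ} (hv : |v| ≤ 1) (hμ : |μ| ≤ p.M * |v|)
    (hr : 1 ≤ |r|) : p.w 0 (v - r) μ ≤ p.wu q v + r ^ 2 := by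
  have hM := p.M_pos
  have hg := p.hg
  have h1 := p.wu_ge hq (hv.trans p.one_le_inv_θ)
  have hP := p.hP 0
  have e1 : r ^ 2 = |r| ^ 2 := (sq_abs r).symm
  have h2 : p.P 0 * |v - r + p.g * μ| ≤ p.P 0 * |r| + |p.P 0| * (|v| + p.g * |μ|) := by
    have h3 : |v + p.g * μ| ≤ |v| + p.g * |μ| := by
      refine (abs_add_le _ _).trans ?_
      rw [abs_mul, abs_of_pos hg]
    have e : v - r + p.g * μ = (v + p.g * μ) - r := by ring
    rw [e]
    rcases le_total 0 (p.P 0) with h | h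
    · rw [abs_of_nonneg h]
      have h4 : |v + p.g * μ - r| ≤ |r| + (|v| + p.g * |μ|) := by
        have := abs_sub (v + p.g * μ) r
        linarith
      have := mul_le_mul_of_nonneg_left h4 h
      linarith
    · rw [abs_of_nonpos h]
      have h4 : |r| - (|v| + p.g * |μ|) ≤ |v + p.g * μ - r| := by
        have := abs_sub_abs_le_abs_sub r (v + p.g * μ)
        rw [abs_sub_comm] at this
        linarith
      have := mul_le_mul_of_nonneg_left h4 (neg_nonneg.2 h)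
      linarith
  have h5 : |p.P 0| * (|v| + p.g * |μ|) + p.δ 0 * |μ| ≤ p.L * |v| := by
    have h6 : |p.P 0| * (|v| + p.g * |μ|) ≤ |p.P 0| * (|v| + p.g * (p.M * |v|)) := by
      apply mul_le_mul_of_nonneg_left _ (abs_nonneg _)
      have := mul_le_mul_of_nonneg_left hμ hg.le
      linarith
    have h7 : p.δ 0 * |μ| ≤ p.δ 0 * (p.M * |v|) := mul_le_mul_of_nonneg_left hμ (p.hδ 0)
    have h8 : p.L * |v| = |p.κ 0| * |v| + |p.P 0| * (|v| + p.g * (p.M * |v|))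
        + p.δ 0 * (p.M * |v|) := by unfold L; ring
    have h9 : 0 ≤ |p.κ 0| * |v| := by positivity
    linarith
  have h10 : p.κ 0 + p.P 0 * |r| ≤ |r| ^ 2 := by
    have h11 := p.h0
    have h12 : p.P 0 ≤ 1 := (le_abs_self _).trans hP
    nlinarith
  unfold w
  rw [e1]
  linarith

lemma un_conv {q : ℝ} (hq : 0 < q) {v μ : ℝ} (hv : 1 ≤ |v|) (hv' : |v| ≤ 1 / p.θ)
    (hμ : |μ| ≤ p.M * |v|) : p.w 0 v μ ≤ p.wu q v := by
  have hM := p.M_pos
  have hg := p.hg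
  refine le_trans ?_ (p.wu_ge hq hv')
  unfold w
  have h1 : p.κ 0 ≤ |p.κ 0| * |v| := by
    calc p.κ 0 ≤ |p.κ 0| * 1 := by rw [mul_one]; exact le_abs_self _
      _ ≤ |p.κ 0| * |v| := mul_le_mul_of_nonneg_left hv (abs_nonneg _)
  have h2 : p.P 0 * |v + p.g * μ| ≤ |p.P 0| * (|v| + p.g * (p.M * |v|)) := by
    have h3 : |v + p.g * μ| ≤ |v| + p.g * (p.M * |v|) := by
      refine (abs_add_le _ _).trans ?_
      rw [abs_mul, abs_of_pos hg]
      have := mul_le_mul_of_nonneg_left hμ hg.le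
      linarith
    calc p.P 0 * |v + p.g * μ| ≤ |p.P 0| * |v + p.g * μ| :=
          mul_le_mul_of_nonneg_right (le_abs_self _) (abs_nonneg _)
      _ ≤ _ := mul_le_mul_of_nonneg_left h3 (abs_nonneg _)
  have h7 : p.δ 0 * |μ| ≤ p.δ 0 * (p.M * |v|) := mul_le_mul_of_nonneg_left hμ (p.hδ 0)
  have h8 : p.L * |v| = |p.κ 0| * |v| + |p.P 0| * (|v| + p.g * (p.M * |v|))
      + p.δ 0 * (p.M * |v|) := by unfold L; ring
  linarith

end MPar

end Pool.Agent.Lib.MP_3cbb73_an.Mem
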