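import Pool.Agent.Lib.MP_3cbb73_an.Greedy
import Pool.Agent.Lib.MP_3cbb73_an.Mem.Par

set_option autoImplicit false

/-! The potential with memory: one step of the algorithm, one advance of the level, coercivity. -/

namespace Pool.Agent.Lib.MP_3cbb73_an.Mem

open Real Filter Topology
open scoped RealInnerProductSpace
open Pool.Agent.Lib.MP_3cbb73_an (Riesz hasSum_energy)

variable {H : Type*} [NormedAddCommGroup H] [InnerProductSpace ℝ H] {ι : Type*}
variable {g : ι → H} {t q : ℝ}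

open Classical in
/-- the contribution of a coordinate -/
noncomputable def term (p : MPar) (q D : ℝ) (x m : ι → ℝ) (S : Finset ι) (a : ι → ℕ) (i : ι) : ℝ :=
  if i ∈ S then p.w (a i) (x i / D) (m i / D) else p.wu q (x i / D)

/-- the potential -/
noncomputable def Gam (p : MPar) (q D : ℝ) (x m : ι → ℝ) (S : Finset ι) (a : ι → ℕ)
    (f F : H) : ℝ :=
  ‖f‖ ^ 2 / D ^ 2 + p.G * (‖F‖ ^ 2 / D ^ 2) + ∑' i, term p q D x m S a i

/-- the state at level `D` -/
structure St (p : MPar) (g : ι → H) (D : ℝ) (x m : ι → ℝ) (S : Finset ι) (f F : H) : Prop where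
  hx : Summable (fun i => |x i|)
  hf : HasSum (fun i => x i • g i) f
  hF : HasSum (fun i => m i • g i) F
  hu : ∀ i, i ∉ S → |x i| ≤ D ∧ |m i| ≤ p.M * |x i|

lemma term_bounds (p : MPar) (hq : 0 < q) {D : ℝ} (hD : 0 < D) {x m : ι → ℝ} {S : Finset ι}
    (a : ι → ℕ) {i : ι} (hi : i ∉ S) (hxi : |x i| ≤ D) :
    0 ≤ term p q D x m S a i ∧ term p q D x m S a i ≤ p.c q * (|x i| / D) := by
  have hv : |x i / D| ≤ 1 := by rw [abs_div, abs_of_pos hD, div_le_one hD]; exact hxi
  have e : |x i / D| = |x i| / D := by rw [abs_div, abs_of_pos hD]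
  unfold term
  rw [if_neg hi]
  refine ⟨p.wu_nonneg hq (hv.trans p.one_le_inv_θ), ?_⟩
  rw [← e]
  exact p.wu_le hq _

lemma St.summable_term {p : MPar} {D : ℝ} {x m : ι → ℝ} {S : Finset ι} {f F : H}
    (h : St p g D x m S f F) (hq : 0 < q) (hD : 0 < D) (a : ι → ℕ) :
    Summable (term p q D x m S a) := by
  classical
  have h1 : Summable (fun i => p.c q * (|x i| / D)) := (h.hx.div_const D).mul_left _
  have h2 : Summable (fun i => if i ∈ S then |term p q D x m S a i| else p.c q * (|x i| / D)) := by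
    refine h1.congr_cofinite ?_
    have : ∀ᶠ i in cofinite, i ∉ S := by
      rw [eventually_cofinite]
      simp only [not_not]
      exact S.finite_toSet
    filter_upwards [this] with i hi
    rw [if_neg hi]
  refine Summable.of_norm_bounded h2 ?_
  intro i
  by_cases hi : i ∈ S
  · rw [if_pos hi, Real.norm_eq_abs]
  · rw [if_neg hi, Real.norm_eq_abs]
    obtain ⟨h3, h4⟩ := term_bounds (m := m) p hq hD a hi (h.hu i hi).1
    rw [abs_of_nonneg h3]
    exact h4

/-- one step of the algorithm -/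
lemma St.step {p : MPar} {D : ℝ} {x m : ι → ℝ} {S : Finset ι} {f F : H}
    (h : St p g D x m S f F) (hq : 0 < q) (hD : 0 < D) (a : ι → ℕ) (i₀ : ι) (h1 : ‖g i₀‖ = 1)
    (hr : D ≤ |⟪f, g i₀⟫|) :
    ∃ (x' : ι → ℝ) (S' : Finset ι) (a' : ι → ℕ),
      St p g D x' m S' (f - ⟪f, g i₀⟫ • g i₀) F ∧
      Gam p q D x' m S' a' (f - ⟪f, g i₀⟫ • g i₀) F ≤ Gam p q D x m S a f F := by
  classical
  set r := ⟪f, g i₀⟫ with hrdef
  set x' := Function.update x i₀ (x i₀ - r) with hx'
  set S' := insert i₀ S with hS'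
  set a' : ι → ℕ := if i₀ ∈ S then a else Function.update a i₀ 0 with ha'
  have hSt : St p g D x' m S' (f - r • g i₀) F := by
    refine ⟨?_, ?_, h.hF, ?_⟩
    · have : (fun i => |x' i|) = Function.update (fun i => |x i|) i₀ (|x i₀ - r|) := by
        funext j
        by_cases hj : j = i₀
        · subst hj; simp [hx']
        · simp [hx', Function.update_of_ne hj]
      rw [this]
      exact (h.hx.hasSum.update i₀ _).summable
    · have : (fun i => x' i • g i)
          = Function.update (fun i => x i • g i) i₀ ((x i₀ - r) • g i₀) := by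
        funext j
        by_cases hj : j = i₀
        · subst hj; simp [hx']
        · simp [hx', Function.update_of_ne hj]
      rw [this]
      have h2 := h.hf.update i₀ ((x i₀ - r) • g i₀)
      have e5 : (x i₀ - r) • g i₀ - x i₀ • g i₀ + f = f - r • g i₀ := by
        rw [sub_smul]
        abel
      rw [← e5]
      exact h2
    · intro i hi
      rw [hS', Finset.mem_insert, not_or] at hi
      have := h.hu i hi.2
      rw [hx', Function.update_of_ne hi.1]
      exact this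
  refine ⟨x', S', a', hSt, ?_⟩
  -- the terms
  have hne : ∀ i, i ≠ i₀ → term p q D x' m S' a' i = term p q D x m S a i := by
    intro i hi
    have e1 : x' i = x i := by rw [hx', Function.update_of_ne hi]
    have e2 : (i ∈ S') = (i ∈ S) := by
      rw [hS', Finset.mem_insert]
      simp [hi]
    have e3 : a' i = a i := by
      rw [ha']
      split_ifs
      · rfl
      · rw [Function.update_of_ne hi]
    unfold term
    rw [e1, e3]
    simp only [e2]
  have hfun : term p q D x' m S' a'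
      = Function.update (term p q D x m S a) i₀ (term p q D x' m S' a' i₀) := by
    funext j
    by_cases hj : j = i₀
    · subst hj; simp
    · rw [Function.update_of_ne hj, hne j hj]
  have hsum := h.summable_term hq hD a
  have htsum : ∑' i, term p q D x' m S' a' i
      = term p q D x' m S' a' i₀ - term p q D x m S a i₀ + ∑' i, term p q D x m S a i := by
    have h3 := (hsum.hasSum.update i₀ (term p q D x' m S' a' i₀)).tsum_eq
    rw [← hfun] at h3
    exact h3
  have hr1 : 1 ≤ |r / D| := by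
    rw [abs_div, abs_of_pos hD, le_div_iff₀ hD, one_mul]
    exact hr
  have hi0 : i₀ ∈ S' := Finset.mem_insert_self _ _
  have ex : x' i₀ / D = x i₀ / D - r / D := by
    rw [hx', Function.update_self, sub_div]
  have hkey : term p q D x' m S' a' i₀ ≤ term p q D x m S a i₀ + (r / D) ^ 2 := by
    by_cases hi : i₀ ∈ S
    · have e3 : a' i₀ = a i₀ := by rw [ha', if_pos hi]
      unfold term
      rw [if_pos hi0, if_pos hi, e3, ex]
      exact p.born_step _ _ _ _ hr1
    · have e3 : a' i₀ = 0 := by rw [ha', if_neg hi, Function.update_self]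
      unfold term
      rw [if_pos hi0, if_neg hi, e3, ex]
      obtain ⟨h4, h5⟩ := h.hu i₀ hi
      apply p.un_step hq _ _ hr1
      · rw [abs_div, abs_of_pos hD, div_le_one hD]; exact h4
      · rw [abs_div, abs_div, abs_of_pos hD, ← mul_div_assoc]
        exact div_le_div_of_nonneg_right h5 hD.le
  have hnorm : ‖f - r • g i₀‖ ^ 2 = ‖f‖ ^ 2 - r ^ 2 := by
    rw [norm_sub_sq_real, real_inner_smul_right, norm_smul, h1, Real.norm_eq_abs, mul_one, sq_abs,
      ← hrdef]
    ring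
  have e := div_pow r D 2
  unfold Gam
  rw [htsum, hnorm, sub_div]
  linarith

lemma hasSum_inner {m : ι → ℝ} {F f : H} (hF : HasSum (fun i => m i • g i) F) :
    HasSum (fun i => m i * ⟪f, g i⟫) ⟪f, F⟫ := by
  have h := (innerSL ℝ f).hasSum hF
  simpa only [innerSL_apply_apply, real_inner_smul_right] using h

/-- one advance of the level -/
lemma St.adv {p : MPar} (hg : Riesz g p.t q) {D : ℝ} {x m : ι → ℝ} {S : Finset ι} {f F : H}
    (h : St p g D x m S f F) (hq : 0 < q) (hD : 0 < D) (a : ι → ℕ)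
    (hmax : ∀ i, |⟪f, g i⟫| ≤ D) :
    ∃ (m' : ι → ℝ) (S' : Finset ι) (a' : ι → ℕ) (F' : H),
      St p g (p.θ * D) x m' S' f F' ∧
      p.s * Gam p q (p.θ * D) x m' S' a' f F' ≤ Gam p q D x m S a f F := by
  classical
  have hθ := p.hθ
  have hθ1 := p.hθ1
  have hs := p.s_pos
  have hα := p.hα
  have hγ := p.hγ
  have ht := p.ht
  have hMp := p.M_pos
  have hθD : 0 < p.θ * D := mul_pos hθ hD
  have hfin : {i | p.θ * D < |x i|}.Finite := by
    have h1 := h.hx.tendsto_cofinite_zero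
    have h2 : ∀ᶠ i in cofinite, |x i| < p.θ * D := h1.eventually_lt_const hθD
    rw [eventually_cofinite] at h2
    refine h2.subset ?_
    intro i hi
    simp only [Set.mem_ofPred_eq, not_lt] at hi ⊢
    exact hi.le
  set m' : ι → ℝ := fun i => p.α * m i + p.γ * x i with hm'
  set F' : H := p.α • F + p.γ • f with hF'
  set S' : Finset ι := S ∪ hfin.toFinset with hS'
  set a' : ι → ℕ := fun i => if i ∈ S then a i + 1 else 0 with ha'
  have hmu : ∀ i, i ∉ S → |m' i| ≤ p.M * |x i| := by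
    intro i hi
    have h1 := (h.hu i hi).2
    calc |m' i| ≤ |p.α * m i| + |p.γ * x i| := abs_add_le _ _
      _ = p.α * |m i| + p.γ * |x i| := by
          rw [abs_mul, abs_mul, abs_of_pos hα, abs_of_pos hγ]
      _ ≤ p.α * (p.M * |x i|) + p.γ * |x i| := by
          have := mul_le_mul_of_nonneg_left h1 hα.le
          linarith
      _ = (p.α * p.M + p.γ) * |x i| := by ring
      _ = p.M * |x i| := by rw [p.M_eq]
  have hSt : St p g (p.θ * D) x m' S' f F' := by
    refine ⟨h.hx, h.hf, ?_, ?_⟩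
    · have h1 := (h.hF.const_smul p.α).add (h.hf.const_smul p.γ)
      have e5 : (fun i => m' i • g i) = fun i => p.α • m i • g i + p.γ • x i • g i := by
        funext i
        simp only [hm']
        rw [add_smul, mul_smul, mul_smul]
      rw [e5]
      exact h1
    · intro i hi
      rw [hS', Finset.mem_union, not_or] at hi
      refine ⟨?_, hmu i hi.1⟩
      have h2 := hi.2
      rw [Set.Finite.mem_toFinset, Set.mem_ofPred_eq, not_lt] at h2
      exact h2
  refine ⟨m', S', a', F', hSt, ?_⟩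
  -- one coordinate
  have hcoord : ∀ i, (p.A * (x i / D) + p.g * p.A * (m i / D)) * (⟪f, g i⟫ / D)
      - p.ω / q * (⟪f, g i⟫ / D) ^ 2 - p.A3 * p.t * (m i / D) ^ 2
      ≤ term p q D x m S a i - p.s * term p q (p.θ * D) x m' S' a' i := by
    intro i
    have hρ : |⟪f, g i⟫ / D| ≤ 1 := by
      rw [abs_div, abs_of_pos hD, div_le_one hD]; exact hmax i
    have ev : x i / (p.θ * D) = x i / D / p.θ := by
      rw [div_div, mul_comm D]
    have em : m' i / (p.θ * D) = (p.α * (m i / D) + p.γ * (x i / D)) / p.θ := by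
      rw [hm']
      field_simp
    have hω2 : 0 ≤ p.ω / q * (⟪f, g i⟫ / D) ^ 2 := by
      have := p.hω
      positivity
    have hA3 : 0 ≤ p.A3 * p.t * (m i / D) ^ 2 := by
      have := p.hA3pos
      positivity
    by_cases hi : i ∈ S
    · have hi' : i ∈ S' := Finset.mem_union_left _ hi
      have h1 := p.born_adv (a i) (x i / D) (m i / D) (⟪f, g i⟫ / D) hρ
      have e1 : term p q (p.θ * D) x m' S' a' i
          = p.w (a i + 1) (x i / D / p.θ) ((p.α * (m i / D) + p.γ * (x i / D)) / p.θ) := by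
        unfold term
        rw [if_pos hi', ev, em]
        simp only [ha', if_pos hi]
      have e2 : term p q D x m S a i = p.w (a i) (x i / D) (m i / D) := by
        unfold term
        rw [if_pos hi]
      rw [e1, e2]
      linarith
    · obtain ⟨hxD, hmx⟩ := h.hu i hi
      have hμ : |m i / D| ≤ p.M * |x i / D| := by
        rw [abs_div, abs_div, abs_of_pos hD, ← mul_div_assoc]
        exact div_le_div_of_nonneg_right hmx hD.le
      have h1 := p.un_adv hq (x i / D) (m i / D) (⟪f, g i⟫ / D) hμ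
      have e2 : term p q D x m S a i = p.wu q (x i / D) := by
        unfold term
        rw [if_neg hi]
      have h2 : term p q (p.θ * D) x m' S' a' i ≤ p.wu q (x i / D / p.θ) := by
        unfold term
        by_cases hi' : i ∈ S'
        · rw [if_pos hi']
          have ea : a' i = 0 := by simp only [ha', if_neg hi]
          rw [ea, ← ev]
          have h3 : p.θ * D < |x i| := by
            rw [hS', Finset.mem_union] at hi'
            rcases hi' with h3 | h3
            · exact absurd h3 hi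
            · rwa [Set.Finite.mem_toFinset, Set.mem_ofPred_eq] at h3
          apply p.un_conv hq
          · rw [abs_div, abs_of_pos hθD, one_le_div hθD]; exact h3.le
          · rw [abs_div, abs_of_pos hθD, div_le_div_iff₀ hθD hθ]
            nlinarith
          · rw [abs_div, abs_div, abs_of_pos hθD, ← mul_div_assoc]
            exact div_le_div_of_nonneg_right (hmu i hi) hθD.le
        · rw [if_neg hi', ev]
      have h4 := mul_le_mul_of_nonneg_left h2 hs.le
      rw [e2]
      linarith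
  -- the sums
  have hsum := h.summable_term hq hD a
  have hsum' := hSt.summable_term hq hθD a'
  have hD2 : D ≠ 0 := hD.ne'
  have hH1 : HasSum (fun i => x i * ⟪f, g i⟫) (‖f‖ ^ 2) := hasSum_energy h.hf
  have hH2 : HasSum (fun i => m i * ⟪f, g i⟫) ⟪f, F⟫ := hasSum_inner h.hF
  have hB := hg.summable_bessel hq f
  have hBle := hg.tsum_bessel_le hq f
  have hm2 := hg.summable_sq ht h.hF
  have hm2le := hg.tsum_sq_le ht h.hF
  have hY : HasSum (fun i => (p.A * (x i / D) + p.g * p.A * (m i / D)) * (⟪f, g i⟫ / D)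
      - p.ω / q * (⟪f, g i⟫ / D) ^ 2 - p.A3 * p.t * (m i / D) ^ 2)
      (p.A / D ^ 2 * ‖f‖ ^ 2 + p.g * p.A / D ^ 2 * ⟪f, F⟫
        - p.ω / q / D ^ 2 * ∑' i, ⟪f, g i⟫ ^ 2 - p.A3 * p.t / D ^ 2 * ∑' i, m i ^ 2) := by
    have h1 := (((hH1.mul_left (p.A / D ^ 2)).add (hH2.mul_left (p.g * p.A / D ^ 2))).sub
      (hB.hasSum.mul_left (p.ω / q / D ^ 2))).sub (hm2.hasSum.mul_left (p.A3 * p.t / D ^ 2))
    have e5 : (fun i => (p.A * (x i / D) + p.g * p.A * (m i / D)) * (⟪f, g i⟫ / D)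
        - p.ω / q * (⟪f, g i⟫ / D) ^ 2 - p.A3 * p.t * (m i / D) ^ 2)
        = fun i => p.A / D ^ 2 * (x i * ⟪f, g i⟫) + p.g * p.A / D ^ 2 * (m i * ⟪f, g i⟫)
          - p.ω / q / D ^ 2 * ⟪f, g i⟫ ^ 2 - p.A3 * p.t / D ^ 2 * m i ^ 2 := by
      funext i
      rw [div_pow, div_pow]
      field_simp
    rw [e5]
    exact h1
  have hle : (p.A / D ^ 2 * ‖f‖ ^ 2 + p.g * p.A / D ^ 2 * ⟪f, F⟫
        - p.ω / q / D ^ 2 * ∑' i, ⟪f, g i⟫ ^ 2 - p.A3 * p.t / D ^ 2 * ∑' i, m i ^ 2)
      ≤ ∑' i, term p q D x m S a i - p.s * ∑' i, term p q (p.θ * D) x m' S' a' i := by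
    have h1 : HasSum (fun i => term p q D x m S a i - p.s * term p q (p.θ * D) x m' S' a' i)
        (∑' i, term p q D x m S a i - p.s * ∑' i, term p q (p.θ * D) x m' S' a' i) :=
      hsum.hasSum.sub (hsum'.hasSum.mul_left _)
    exact hasSum_le hcoord hY h1
  have h5 : p.ω / q / D ^ 2 * ∑' i, ⟪f, g i⟫ ^ 2 ≤ p.ω / D ^ 2 * ‖f‖ ^ 2 := by
    have h6 : 0 ≤ p.ω / q / D ^ 2 := by have := p.hω; positivity
    refine (mul_le_mul_of_nonneg_left hBle h6).trans (le_of_eq ?_)
    field_simp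
  have h7 : p.A3 * p.t / D ^ 2 * ∑' i, m i ^ 2 ≤ p.A3 / D ^ 2 * ‖F‖ ^ 2 := by
    have h6 : 0 ≤ p.A3 / D ^ 2 := by have := p.hA3pos; positivity
    refine le_trans (le_of_eq ?_) (mul_le_mul_of_nonneg_left hm2le h6)
    ring
  have hnF : ‖F'‖ ^ 2 = p.α ^ 2 * ‖F‖ ^ 2 + 2 * p.α * p.γ * ⟪f, F⟫ + p.γ ^ 2 * ‖f‖ ^ 2 := by
    rw [hF', norm_add_sq_real, norm_smul, norm_smul, real_inner_smul_left, real_inner_smul_right,
      Real.norm_eq_abs, Real.norm_eq_abs, abs_of_pos hα, abs_of_pos hγ, real_inner_comm]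
    ring
  have hkey : p.s * (‖f‖ ^ 2 / (p.θ * D) ^ 2 + p.G * (‖F'‖ ^ 2 / (p.θ * D) ^ 2))
      = ‖f‖ ^ 2 / D ^ 2 + p.G * (‖F‖ ^ 2 / D ^ 2)
        + (p.A / D ^ 2 * ‖f‖ ^ 2 + p.g * p.A / D ^ 2 * ⟪f, F⟫ - p.ω / D ^ 2 * ‖f‖ ^ 2
          - p.A3 / D ^ 2 * ‖F‖ ^ 2) := by
    rw [hnF, p.hgA, p.hA, p.hA3]
    field_simp
    ring
  unfold Gam
  rw [mul_add, hkey]
  linarith

/-- coercivity -/
lemma St.coercive {p : MPar} (hg : Riesz g p.t q) {D : ℝ} {x m : ι → ℝ} {S : Finset ι} {f F : H}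
    (h : St p g D x m S f F) (hq : 0 < q) (hD : 0 < D) (a : ι → ℕ) :
    (1 - p.η * (1 + p.τ) / (4 * p.t)) * (‖f‖ ^ 2 / D ^ 2) ≤ Gam p q D x m S a f F := by
  classical
  have ht := p.ht
  have hη := p.hη
  have hτ := p.hτ
  have hgp := p.hg
  have hsum := h.summable_term hq hD a
  have hy : HasSum (fun i => (x i + p.g * m i) • g i) (f + p.g • F) := by
    have h1 := h.hf.add (h.hF.const_smul p.g)
    have e5 : (fun i => (x i + p.g * m i) • g i) = fun i => x i • g i + p.g • m i • g i := by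
      funext i
      rw [add_smul, mul_smul]
    rw [e5]
    exact h1
  have hy2 := hg.summable_sq ht hy
  have hy2le := hg.tsum_sq_le ht hy
  have h1 : ∀ i, -(p.η / 4 / D ^ 2) * (x i + p.g * m i) ^ 2 ≤ term p q D x m S a i := by
    intro i
    have h3 : -(p.η / 4 / D ^ 2) * (x i + p.g * m i) ^ 2
        = -(p.η / 4 * (x i / D + p.g * (m i / D)) ^ 2) := by
      field_simp
    by_cases hi : i ∈ S
    · have h5 := p.w_coer (a i) (x i / D) (m i / D)
      unfold term
      rw [if_pos hi, h3]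
      exact h5
    · have h5 := (term_bounds (m := m) p hq hD a hi (h.hu i hi).1).1
      refine le_trans ?_ h5
      rw [h3]
      have : 0 ≤ p.η / 4 * (x i / D + p.g * (m i / D)) ^ 2 := by positivity
      linarith
  have h6 : HasSum (fun i => -(p.η / 4 / D ^ 2) * (x i + p.g * m i) ^ 2)
      (-(p.η / 4 / D ^ 2) * ∑' i, (x i + p.g * m i) ^ 2) := hy2.hasSum.mul_left _
  have h7 := hasSum_le h1 h6 hsum.hasSum
  -- the norm of `f + g F`
  have h8 : ‖f + p.g • F‖ ^ 2 ≤ (1 + p.τ) * ‖f‖ ^ 2 + (1 + p.τ) / p.τ * p.g ^ 2 * ‖F‖ ^ 2 := by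
    have h9 : ‖f + p.g • F‖ ≤ ‖f‖ + p.g * ‖F‖ := by
      refine (norm_add_le _ _).trans ?_
      rw [norm_smul, Real.norm_eq_abs, abs_of_pos hgp]
    have h10 : ‖f + p.g • F‖ ^ 2 ≤ (‖f‖ + p.g * ‖F‖) ^ 2 :=
      pow_le_pow_left₀ (norm_nonneg _) h9 2
    refine h10.trans ?_
    have h11 : 0 ≤ 1 / p.τ * (p.τ * ‖f‖ - p.g * ‖F‖) ^ 2 := by positivity
    have h12 : 1 / p.τ * (p.τ * ‖f‖ - p.g * ‖F‖) ^ 2
        = (1 + p.τ) * ‖f‖ ^ 2 + (1 + p.τ) / p.τ * p.g ^ 2 * ‖F‖ ^ 2
          - (‖f‖ + p.g * ‖F‖) ^ 2 := by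
      field_simp
      ring
    linarith
  have h13 : p.η / 4 / D ^ 2 * ∑' i, (x i + p.g * m i) ^ 2
      ≤ p.η * (1 + p.τ) / (4 * p.t) * (‖f‖ ^ 2 / D ^ 2) + p.G * (‖F‖ ^ 2 / D ^ 2) := by
    have h9 : 0 ≤ p.η / 4 / D ^ 2 / p.t := by positivity
    have h14 : p.η / 4 / D ^ 2 * ∑' i, (x i + p.g * m i) ^ 2
        ≤ p.η / 4 / D ^ 2 / p.t * ((1 + p.τ) * ‖f‖ ^ 2
          + (1 + p.τ) / p.τ * p.g ^ 2 * ‖F‖ ^ 2) := by
      refine le_trans (le_of_eq ?_) (mul_le_mul_of_nonneg_left (hy2le.trans h8) h9)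
      field_simp
    refine h14.trans ?_
    have h15 : p.η * p.g ^ 2 * (1 + p.τ) / (4 * p.t * p.τ) ≤ p.G := by
      rw [div_le_iff₀ (by positivity)]
      have := p.hηG
      linarith
    have h16 := mul_le_mul_of_nonneg_right h15 (by positivity : 0 ≤ ‖F‖ ^ 2 / D ^ 2)
    have h17 : p.η / 4 / D ^ 2 / p.t * ((1 + p.τ) * ‖f‖ ^ 2
          + (1 + p.τ) / p.τ * p.g ^ 2 * ‖F‖ ^ 2)
        = p.η * (1 + p.τ) / (4 * p.t) * (‖f‖ ^ 2 / D ^ 2)
          + p.η * p.g ^ 2 * (1 + p.τ) / (4 * p.t * p.τ) * (‖F‖ ^ 2 / D ^ 2) := by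
      field_simp
    rw [h17]
    linarith
  unfold Gam
  linarith

end Pool.Agent.Lib.MP_3cbb73_an.Mem
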