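import Pool.Agent.Lib.MP_3cbb73_an.Rate
import Pool.Agent.Lib.MP_3cbb73_an.Upper.Rate
import Pool.Agent.Lib.MP_3cbb73_an.Mem.Greedy

set_option autoImplicit false

/-! The rate of convergence from the potential with memory. -/

namespace Pool.Agent.Lib.MP_3cbb73_an.Mem

open Real Filter Topology
open scoped RealInnerProductSpace
open Pool.Agent.Lib.MP_3cbb73_an (Riesz hasSum_energy seq_bound)

variable {H : Type*} [NormedAddCommGroup H] [InnerProductSpace ℝ H] {ι : Type*}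
variable {g : ι → H} {q : ℝ}

/-- lower the level until it is at most the largest inner product -/
lemma descend (p : MPar) (hg : Riesz g p.t q) (hq : 0 < q) {f : H} {r B : ℝ}
    (hmax : ∀ i, |⟪f, g i⟫| ≤ r) :
    ∀ (n j : ℕ) (x m : ι → ℝ) (S : Finset ι) (a : ι → ℕ) (Φ : H),
      St p g (p.θ ^ j) x m S f Φ → p.s ^ j * Gam p q (p.θ ^ j) x m S a f Φ ≤ B →
      p.θ ^ (j + n) ≤ r →
      ∃ (j' : ℕ) (x' m' : ι → ℝ) (S' : Finset ι) (a' : ι → ℕ) (Φ' : H),
        St p g (p.θ ^ j') x' m' S' f Φ' ∧ p.s ^ j' * Gam p q (p.θ ^ j') x' m' S' a' f Φ' ≤ B ∧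
        p.θ ^ j' ≤ r := by
  intro n
  induction n with
  | zero =>
    intro j x m S a Φ h1 h2 h3
    exact ⟨j, x, m, S, a, Φ, h1, h2, h3⟩
  | succ n ih =>
    intro j x m S a Φ h1 h2 h3
    rcases le_total (p.θ ^ j) r with h | h
    · exact ⟨j, x, m, S, a, Φ, h1, h2, h⟩
    · have hD : 0 < p.θ ^ j := pow_pos p.hθ j
      obtain ⟨m', S', a', Φ', h4, h5⟩ := h1.adv hg hq hD a (fun i => (hmax i).trans h)
      have e : p.θ * p.θ ^ j = p.θ ^ (j + 1) := by rw [pow_succ]; ring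
      rw [e] at h4 h5
      refine ih (j + 1) x m' S' a' Φ' h4 ?_ ?_
      · have h6 : 0 ≤ p.s ^ j := (pow_pos p.s_pos j).le
        have h7 := mul_le_mul_of_nonneg_left h5 h6
        calc p.s ^ (j + 1) * Gam p q (p.θ ^ (j + 1)) x m' S' a' f Φ'
            = p.s ^ j * (p.s * Gam p q (p.θ ^ (j + 1)) x m' S' a' f Φ') := by
              rw [pow_succ]; ring
          _ ≤ p.s ^ j * Gam p q (p.θ ^ j) x m S a f Φ := h7
          _ ≤ B := h2
      · have e2 : j + 1 + n = j + (n + 1) := by omega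
        rw [e2]
        exact h3

/-- The basic inequality along the algorithm. -/
theorem basic (p : MPar) (hg : Riesz g p.t q) (hq : 0 < q)
    {F : ℕ → H} {φ : ℕ → ι}
    (hstep : ∀ k, F (k + 1) = F k - ⟪F k, g (φ k)⟫ • g (φ k))
    (hmax : ∀ k i, |⟪F k, g i⟫| ≤ |⟪F k, g (φ k)⟫|)
    {x : ι → ℝ} (hx1 : Summable (fun i => |x i|)) (hxs : ∑' i, |x i| ≤ 1)
    (hx : HasSum (fun i => x i • g i) (F 0)) (k : ℕ) (hk : F k ≠ 0) :
    ∃ j : ℕ, p.θ ^ j ≤ |⟪F k, g (φ k)⟫| ∧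
      ‖F k‖ ^ 2 ≤ (1 + p.c q) / (1 - p.η * (1 + p.τ) / (4 * p.t)) * (p.θ ^ 2 / p.s) ^ j := by
  classical
  have ht := p.ht
  set d : ℝ := 1 - p.η * (1 + p.τ) / (4 * p.t) with hd
  have hd0 : 0 < d := by
    rw [hd, sub_pos, div_lt_one (by positivity)]
    exact p.hηt
  -- positivity of the maximal inner product
  have hpos : ∀ k, ∀ x : ι → ℝ, HasSum (fun i => x i • g i) (F k) → F k ≠ 0 →
      0 < |⟪F k, g (φ k)⟫| := by
    intro k x hx hF
    by_contra hcon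
    have h0 : |⟪F k, g (φ k)⟫| = 0 := le_antisymm (not_lt.1 hcon) (abs_nonneg _)
    have h1 : ∀ i, ⟪F k, g i⟫ = 0 := by
      intro i
      have := hmax k i
      rw [h0] at this
      exact abs_eq_zero.1 (le_antisymm this (abs_nonneg _))
    have h2 := hasSum_energy hx
    simp only [h1, mul_zero] at h2
    have h3 := h2.unique hasSum_zero
    exact hF (norm_eq_zero.1 (pow_eq_zero_iff (two_ne_zero) |>.1 h3))
  -- the state before the descent
  have hst : ∀ k, F k ≠ 0 → ∃ (j : ℕ) (x m : ι → ℝ) (S : Finset ι) (a : ι → ℕ) (Φ : H),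
      St p g (p.θ ^ j) x m S (F k) Φ ∧
      p.s ^ j * Gam p q (p.θ ^ j) x m S a (F k) Φ ≤ 1 + p.c q ∧
      p.θ ^ j ≤ |⟪F k, g (φ k)⟫| := by
    have hdesc : ∀ k, F k ≠ 0 → (∃ (j : ℕ) (x m : ι → ℝ) (S : Finset ι) (a : ι → ℕ) (Φ : H),
        St p g (p.θ ^ j) x m S (F k) Φ ∧
        p.s ^ j * Gam p q (p.θ ^ j) x m S a (F k) Φ ≤ 1 + p.c q) →
        ∃ (j : ℕ) (x m : ι → ℝ) (S : Finset ι) (a : ι → ℕ) (Φ : H),
        St p g (p.θ ^ j) x m S (F k) Φ ∧
        p.s ^ j * Gam p q (p.θ ^ j) x m S a (F k) Φ ≤ 1 + p.c q ∧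
        p.θ ^ j ≤ |⟪F k, g (φ k)⟫| := by
      rintro k hF ⟨j, x, m, S, a, Φ, h1, h2⟩
      have h3 := hpos k x h1.hf hF
      obtain ⟨n, hn⟩ := exists_pow_lt_of_lt_one h3 p.hθ1
      refine descend p hg hq (hmax k) n j x m S a Φ h1 h2 (le_trans ?_ hn.le)
      rw [pow_add]
      have h4 : p.θ ^ j ≤ 1 := pow_le_one₀ p.hθ.le p.hθ1.le
      have h5 : 0 < p.θ ^ n := pow_pos p.hθ n
      nlinarith
    intro k
    induction k with
    | zero =>
      intro hF
      apply hdesc 0 hF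
      refine ⟨0, x, fun _ => 0, ∅, fun _ => 0, 0, ?_, ?_⟩
      · refine ⟨hx1, hx, ?_, ?_⟩
        · simpa only [zero_smul] using (hasSum_zero : HasSum (fun _ : ι => (0 : H)) 0)
        · intro i _
          refine ⟨?_, ?_⟩
          · rw [pow_zero]
            exact (hx1.le_tsum i (fun j _ => abs_nonneg _)).trans hxs
          · rw [abs_zero]
            exact mul_nonneg p.M_pos.le (abs_nonneg _)
      · rw [pow_zero, pow_zero, one_mul]
        unfold Gam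
        have e1 : ∀ i, term p q 1 x (fun _ => 0) ∅ (fun _ => 0) i ≤ p.c q * |x i| := by
          intro i
          unfold term
          rw [if_neg (Finset.notMem_empty i), div_one]
          exact p.wu_le hq _
        have hS : St p g 1 x (fun _ => 0) ∅ (F 0) 0 := by
          refine ⟨hx1, hx, ?_, ?_⟩
          · simpa only [zero_smul] using (hasSum_zero : HasSum (fun _ : ι => (0 : H)) 0)
          · intro i _
            refine ⟨(hx1.le_tsum i (fun j _ => abs_nonneg _)).trans hxs, ?_⟩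
            rw [abs_zero]
            exact mul_nonneg p.M_pos.le (abs_nonneg _)
        have h1 := (hS.summable_term hq one_pos (fun _ => 0)).tsum_le_tsum e1
          (hx1.mul_left (p.c q))
        have h2 : ∑' i, p.c q * |x i| ≤ p.c q := by
          rw [tsum_mul_left]
          calc p.c q * ∑' i, |x i| ≤ p.c q * 1 :=
                mul_le_mul_of_nonneg_left hxs (p.c_nonneg hq)
            _ = p.c q := mul_one _
        have h3 : ‖F 0‖ ≤ 1 := by
          rw [← hx.tsum_eq]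
          refine (norm_tsum_le_tsum_norm ?_).trans ?_
          · simpa [norm_smul, hg.norm_one] using hx1
          · simpa [norm_smul, hg.norm_one] using hxs
        have h4 : ‖F 0‖ ^ 2 ≤ 1 := by
          have := norm_nonneg (F 0)
          nlinarith
        rw [norm_zero]
        have e2 : ‖F 0‖ ^ 2 / 1 ^ 2 + p.G * ((0 : ℝ) ^ 2 / 1 ^ 2) = ‖F 0‖ ^ 2 := by ring
        rw [e2]
        linarith
    | succ k ih =>
      intro hF
      have hFk : F k ≠ 0 := by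
        intro h0
        apply hF
        rw [hstep k, h0]
        simp
      obtain ⟨j, x, m, S, a, Φ, h1, h2, h3⟩ := ih hFk
      have hD : 0 < p.θ ^ j := pow_pos p.hθ j
      obtain ⟨x', S', a', h4, h5⟩ := h1.step hq hD a (φ k) (hg.norm_one _) h3
      rw [← hstep k] at h4 h5
      apply hdesc (k + 1) hF
      refine ⟨j, x', m, S', a', Φ, h4, ?_⟩
      exact (mul_le_mul_of_nonneg_left h5 (pow_pos p.s_pos j).le).trans h2
  obtain ⟨j, x, m, S, a, Φ, h1, h2, h3⟩ := hst k hk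
  refine ⟨j, h3, ?_⟩
  have hD : 0 < p.θ ^ j := pow_pos p.hθ j
  have hsj : 0 < p.s ^ j := pow_pos p.s_pos j
  have h4 := h1.coercive hg hq hD a
  have h5 := mul_le_mul_of_nonneg_left h4 hsj.le
  have h6 := h5.trans h2
  have e : p.s ^ j * (d * (‖F k‖ ^ 2 / (p.θ ^ j) ^ 2)) = ‖F k‖ ^ 2 * d / (p.θ ^ 2 / p.s) ^ j := by
    rw [div_pow, ← pow_mul, ← pow_mul, mul_comm j 2]
    field_simp
  rw [← hd, e] at h6
  have hq' : 0 < (p.θ ^ 2 / p.s) ^ j := pow_pos (div_pos (pow_pos p.hθ 2) p.s_pos) j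
  rw [div_le_iff₀ hq'] at h6
  rw [div_mul_eq_mul_div, le_div_iff₀ hd0]
  linarith

/-- The residuals satisfy `‖F k‖² ≤ C² / (k+1)`, when `s = θ`. -/
theorem rate_half (p : MPar) (hs : p.s = p.θ) (hg : Riesz g p.t q) (hq : 0 < q)
    {F : ℕ → H} {φ : ℕ → ι}
    (hstep : ∀ k, F (k + 1) = F k - ⟪F k, g (φ k)⟫ • g (φ k))
    (hmax : ∀ k i, |⟪F k, g i⟫| ≤ |⟪F k, g (φ k)⟫|)
    {x : ι → ℝ} (hx1 : Summable (fun i => |x i|)) (hxs : ∑' i, |x i| ≤ 1)
    (hx : HasSum (fun i => x i • g i) (F 0)) (k : ℕ) :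
    ‖F k‖ ^ 2 ≤ ((1 + p.c q) / (1 - p.η * (1 + p.τ) / (4 * p.t))) ^ 2 / (k + 1) := by
  have ht := p.ht
  set d : ℝ := 1 - p.η * (1 + p.τ) / (4 * p.t) with hd
  have hd0 : 0 < d := by
    rw [hd, sub_pos, div_lt_one (by positivity)]
    exact p.hηt
  have hd1 : d ≤ 1 := by
    rw [hd]
    have hη := p.hη
    have hτ := p.hτ
    have : 0 ≤ p.η * (1 + p.τ) / (4 * p.t) := by positivity
    linarith
  set C : ℝ := (1 + p.c q) / d with hC
  have hc := p.c_nonneg hq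
  have hC1 : 1 ≤ C := by
    rw [hC, le_div_iff₀ hd0]
    linarith
  have hbasic : ∀ k, ‖F k‖ ^ 2 ≤ C * |⟪F k, g (φ k)⟫| := by
    intro k
    by_cases hF : F k = 0
    · rw [hF]; simp
    · obtain ⟨j, h1, h2⟩ := basic p hg hq hstep hmax hx1 hxs hx k hF
      rw [← hd, ← hC] at h2
      refine h2.trans ?_
      apply mul_le_mul_of_nonneg_left _ (by linarith)
      have e : p.θ ^ 2 / p.s = p.θ := by
        rw [hs, sq, mul_div_assoc, div_self p.hθ.ne', mul_one]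
      rw [e]
      exact h1
  have hnorm : ∀ k, ‖F (k + 1)‖ ^ 2 = ‖F k‖ ^ 2 - ⟪F k, g (φ k)⟫ ^ 2 := by
    intro k
    rw [hstep k, norm_sub_sq_real, real_inner_smul_right, norm_smul, hg.norm_one,
      Real.norm_eq_abs, mul_one, sq_abs]
    ring
  have hC2 : 0 < C ^ 2 := by positivity
  apply seq_bound (a := fun k => ‖F k‖ ^ 2) hC2
  · -- initial norm
    have h1 : ‖F 0‖ ≤ 1 := by
      rw [← hx.tsum_eq]
      refine (norm_tsum_le_tsum_norm ?_).trans ?_
      · simpa [norm_smul, hg.norm_one] using hx1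
      · simpa [norm_smul, hg.norm_one] using hxs
    have h2 : ‖F 0‖ ^ 2 ≤ 1 := by
      have := norm_nonneg (F 0)
      nlinarith
    have h3 : 1 ≤ C ^ 2 := by nlinarith
    simpa using h2.trans h3
  · intro k
    rw [hnorm k]
    have h1 := hbasic k
    have h2 : (‖F k‖ ^ 2) ^ 2 / C ^ 2 ≤ ⟪F k, g (φ k)⟫ ^ 2 := by
      rw [div_le_iff₀ hC2, ← sq_abs (⟪F k, g (φ k)⟫)]
      have := pow_le_pow_left₀ (sq_nonneg ‖F k‖) h1 2
      nlinarith
    linarith

/-- The residuals satisfy `‖F k‖ ≤ C (k+1)^{-e/(2(2-e))}`, when `θ² / s ≤ θ ^ e`. -/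
theorem rate_pow (p : MPar) {e : ℝ} (he : 0 < e) (he1 : e ≤ 1) (hθe : p.θ ^ 2 / p.s ≤ p.θ ^ e)
    (hg : Riesz g p.t q) (hq : 0 < q)
    {F : ℕ → H} {φ : ℕ → ι}
    (hstep : ∀ k, F (k + 1) = F k - ⟪F k, g (φ k)⟫ • g (φ k))
    (hmax : ∀ k i, |⟪F k, g i⟫| ≤ |⟪F k, g (φ k)⟫|)
    {x : ι → ℝ} (hx1 : Summable (fun i => |x i|)) (hxs : ∑' i, |x i| ≤ 1)
    (hx : HasSum (fun i => x i • g i) (F 0)) (k : ℕ) :
    ‖F k‖ ≤ (1 + p.c q) / (1 - p.η * (1 + p.τ) / (4 * p.t))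
      * ((k : ℝ) + 1) ^ (-(e / (2 * (2 - e)))) := by
  have ht := p.ht
  set d : ℝ := 1 - p.η * (1 + p.τ) / (4 * p.t) with hd
  have hd0 : 0 < d := by
    rw [hd, sub_pos, div_lt_one (by positivity)]
    exact p.hηt
  have hd1 : d ≤ 1 := by
    rw [hd]
    have hη := p.hη
    have hτ := p.hτ
    have : 0 ≤ p.η * (1 + p.τ) / (4 * p.t) := by positivity
    linarith
  set C : ℝ := (1 + p.c q) / d with hC
  have hc := p.c_nonneg hq
  have hC1 : 1 ≤ C := by
    rw [hC, le_div_iff₀ hd0]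
    linarith
  have hC0 : 0 < C := by linarith
  have hbasic : ∀ k, ‖F k‖ ^ 2 ≤ C * |⟪F k, g (φ k)⟫| ^ e := by
    intro k
    by_cases hF : F k = 0
    · rw [hF, norm_zero, inner_zero_left, abs_zero, Real.zero_rpow he.ne']
      simp
    · obtain ⟨j, h1, h2⟩ := basic p hg hq hstep hmax hx1 hxs hx k hF
      rw [← hd, ← hC] at h2
      refine h2.trans ?_
      apply mul_le_mul_of_nonneg_left _ hC0.le
      have h3 : 0 ≤ p.θ ^ 2 / p.s := (div_pos (pow_pos p.hθ 2) p.s_pos).le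
      have h4 : (p.θ ^ 2 / p.s) ^ j ≤ (p.θ ^ e) ^ j := pow_le_pow_left₀ h3 hθe j
      have h5 : (p.θ ^ e) ^ j = (p.θ ^ j) ^ e := by
        rw [← Real.rpow_natCast, ← Real.rpow_natCast, ← Real.rpow_mul p.hθ.le,
          ← Real.rpow_mul p.hθ.le, mul_comm]
      rw [h5] at h4
      exact h4.trans (Real.rpow_le_rpow (pow_pos p.hθ j).le h1 he.le)
  have hnorm : ∀ k, ‖F (k + 1)‖ ^ 2 = ‖F k‖ ^ 2 - ⟪F k, g (φ k)⟫ ^ 2 := by
    intro k
    rw [hstep k, norm_sub_sq_real, real_inner_smul_right, norm_smul, hg.norm_one,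
      Real.norm_eq_abs, mul_one, sq_abs]
    ring
  have hF0 : ‖F 0‖ ≤ 1 := by
    rw [← hx.tsum_eq]
    refine (norm_tsum_le_tsum_norm ?_).trans ?_
    · simpa [norm_smul, hg.norm_one] using hx1
    · simpa [norm_smul, hg.norm_one] using hxs
  set u : ℝ := 2 / e - 1 with hu
  have hu1 : 1 ≤ u := by
    have : 2 ≤ 2 / e := by rw [le_div_iff₀ he]; linarith
    linarith
  have hrec : ∀ k, ‖F (k + 1)‖ ^ 2 ≤ ‖F k‖ ^ 2 - (‖F k‖ ^ 2 / C) ^ (1 + u) := by
    intro k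
    rw [hnorm k]
    have h1 : ‖F k‖ ^ 2 / C ≤ |⟪F k, g (φ k)⟫| ^ e := by
      rw [div_le_iff₀ hC0]
      have := hbasic k
      linarith
    have h2 : (‖F k‖ ^ 2 / C) ^ (1 + u) ≤ (|⟪F k, g (φ k)⟫| ^ e) ^ (1 + u) :=
      Real.rpow_le_rpow (by positivity) h1 (by linarith)
    have h3 : (|⟪F k, g (φ k)⟫| ^ e) ^ (1 + u) = ⟪F k, g (φ k)⟫ ^ 2 := by
      rw [← Real.rpow_mul (abs_nonneg _)]
      have : e * (1 + u) = (2 : ℕ) := by
        rw [hu]
        push_cast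
        field_simp
        ring
      rw [this, Real.rpow_natCast, sq_abs]
    rw [h3] at h2
    linarith
  have hfin := Pool.Agent.Lib.MP_3cbb73_an.Upper.seq_pow (a := fun k => ‖F k‖ ^ 2) hC1 hu1
    (fun k => by positivity) (by nlinarith [norm_nonneg (F 0)]) hrec k
  have hk0 : (0 : ℝ) < (k : ℝ) + 1 := by positivity
  have he2 : 0 < 2 - e := by linarith
  have h4 : (((k : ℝ) + 1) ^ (-(e / (2 * (2 - e))))) ^ 2 = ((k : ℝ) + 1) ^ (-(1 / u)) := by
    rw [← Real.rpow_natCast, ← Real.rpow_mul hk0.le]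
    congr 1
    rw [hu]
    push_cast
    have : 2 / e - 1 = (2 - e) / e := by field_simp
    rw [this]
    field_simp
  have h5 : ‖F k‖ ^ 2 ≤ (C * ((k : ℝ) + 1) ^ (-(e / (2 * (2 - e))))) ^ 2 := by
    rw [mul_pow, h4]
    exact hfin
  exact le_of_sq_le_sq h5 (by positivity)

end Pool.Agent.Lib.MP_3cbb73_an.Mem
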